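import Mathlib

namespace H11.ESz

/-- `f(n) = min_{2 ≤ k ≤ n/2} gcd(n, C(n,k))`. -/
noncomputable def f (n : ℕ) : ℕ := sInf {g | ∃ k, 2 ≤ k ∧ k ≤ n / 2 ∧ g = Nat.gcd n (n.choose k)}

/-- The largest prime factor. -/
def Pmax (n : ℕ) : ℕ := n.primeFactors.sup id

theorem dvd_mul_choose {n k : ℕ} (hn : 0 < n) (hk : 0 < k) : n ∣ n.choose k * k := by
  obtain ⟨n, rfl⟩ := Nat.exists_eq_succ_of_ne_zero hn.ne'
  obtain ⟨k, rfl⟩ := Nat.exists_eq_succ_of_ne_zero hk.ne'
  exact ⟨_, (Nat.add_one_mul_choose_eq n k).symm⟩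

theorem gcd_dvd {m P j : ℕ} (hP : P.Prime) (h : m < P) (hj : j ≤ m) :
    Nat.gcd (m * P) ((m * P).choose (j * P)) ∣ m := by
  haveI := Fact.mk hP
  have h1 := Choose.choose_modEq_choose_mod_mul_choose_div_nat (n := m * P) (k := j * P) (p := P)
  simp only [Nat.mul_mod_left, Nat.choose_self, one_mul, Nat.mul_div_cancel _ hP.pos] at h1
  have h2 : ¬ P ∣ (m * P).choose (j * P) := fun h2 => by
    have h3 : P ∣ m.choose j := (h1.dvd_iff dvd_rfl).1 h2
    have h4 : P ∣ m.factorial := by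
      rw [← Nat.choose_mul_factorial_mul_factorial hj, mul_assoc]
      exact h3.mul_right _
    have := hP.dvd_factorial.1 h4
    omega
  refine Nat.Coprime.dvd_of_dvd_mul_right (k := _) (n := P) ?_ (Nat.gcd_dvd_left _ _)
  exact Nat.Coprime.coprime_dvd_left (Nat.gcd_dvd_right _ _)
    ((Nat.Prime.coprime_iff_not_dvd hP).2 h2).symm

theorem pmax {m P : ℕ} (hP : P.Prime) (hm : 2 ≤ m) (h : m < P) : m * P / Pmax (m * P) = m := by
  have : Pmax (m * P) = P := by
    refine le_antisymm (Finset.sup_le fun q hq => ?_) (Finset.le_sup (f := id)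
      (Nat.mem_primeFactors.2 ⟨hP, dvd_mul_left _ _, by have := hP.pos; positivity⟩))
    obtain ⟨h1, h2, -⟩ := Nat.mem_primeFactors.1 hq
    rcases h1.dvd_mul.1 h2 with h3 | h3
    · exact (Nat.le_of_dvd (by omega) h3).trans h.le
    · exact Nat.le_of_dvd hP.pos h3
  rw [this, Nat.mul_div_cancel _ hP.pos]

end H11.ESz

namespace Pool.Agent.Results.MP_35d543_nt.LargePrime

open H11.ESz

theorem aux :
    (∀ m P : ℕ, P.Prime → 2 ≤ m → m < P → (f (m * P) = m * P / Pmax (m * P) ↔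
      ∀ j, 1 ≤ j → j ≤ m / 2 → m ∣ (m * P).choose (j * P))) ∧
    (∀ p : ℕ, p.Prime → 5 ≤ p → f (4 * p) = 4 * p / Pmax (4 * p)) := by
  have A : ∀ m P : ℕ, P.Prime → 2 ≤ m → m < P → (f (m * P) = m * P / Pmax (m * P) ↔
      ∀ j, 1 ≤ j → j ≤ m / 2 → m ∣ (m * P).choose (j * P)) := by
    intro m P hP hm h
    have hn : 0 < m * P := Nat.mul_pos (by omega) hP.pos
    have hr : ∀ j, 1 ≤ j → j ≤ m / 2 → 2 ≤ j * P ∧ j * P ≤ m * P / 2 := fun j h1 h2 =>
      ⟨by nlinarith, (Nat.le_div_iff_mul_le two_pos).2 (by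
        have : j * 2 ≤ m := by omega
        nlinarith)⟩
    rw [pmax hP hm h]
    constructor
    · intro hf j h1 h2
      have h3 : f (m * P) ≤ Nat.gcd (m * P) ((m * P).choose (j * P)) :=
        Nat.sInf_le ⟨j * P, (hr j h1 h2).1, (hr j h1 h2).2, rfl⟩
      have h4 := gcd_dvd hP h (show j ≤ m by omega)
      have h5 := le_antisymm (Nat.le_of_dvd (by omega) h4) (hf.symm.trans_le h3)
      have h6 := Nat.gcd_dvd_right (m * P) ((m * P).choose (j * P))
      rwa [h5] at h6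
    · intro H
      have h1 := hr 1 le_rfl (by omega)
      have hmem : Nat.gcd (m * P) ((m * P).choose (1 * P)) ∈
          {g | ∃ k, 2 ≤ k ∧ k ≤ m * P / 2 ∧ g = Nat.gcd (m * P) ((m * P).choose k)} :=
        ⟨1 * P, h1.1, h1.2, rfl⟩
      refine le_antisymm ((Nat.sInf_le hmem).trans
        (Nat.le_of_dvd (by omega) (gcd_dvd hP h (by omega)))) ?_
      obtain ⟨k, hk2, hk, hg⟩ := Nat.sInf_mem ⟨_, hmem⟩
      rw [f, hg]
      have hpos := Nat.gcd_pos_of_pos_left ((m * P).choose k) hn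
      by_cases hd : P ∣ k
      · obtain ⟨j, rfl⟩ := hd
        rw [mul_comm P j] at *
        have hj : 1 ≤ j := Nat.pos_of_ne_zero (by rintro rfl; omega)
        have hj2 : j ≤ m / 2 := by
          have h6 := (Nat.le_div_iff_mul_le two_pos).1 hk
          have : j * 2 ≤ m := Nat.le_of_mul_le_mul_right (by linarith) hP.pos
          omega
        exact Nat.le_of_dvd hpos (Nat.dvd_gcd (dvd_mul_right _ _) (H j hj hj2))
      · refine h.le.trans (Nat.le_of_dvd hpos (Nat.dvd_gcd (dvd_mul_left _ _) ?_))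
        exact ((Nat.Prime.coprime_iff_not_dvd hP).2 hd).dvd_of_dvd_mul_right
          ((dvd_mul_left _ _).trans (dvd_mul_choose hn (by omega)))
  refine ⟨A, fun p hp h5 => (A 4 p hp (by norm_num) (by omega)).2 fun j h1 h2 => ?_⟩
  obtain rfl | rfl : j = 1 ∨ j = 2 := by omega
  · rw [one_mul]
    exact Nat.dvd_of_mul_dvd_mul_right hp.pos (dvd_mul_choose (by omega) hp.pos)
  · obtain ⟨t, rfl⟩ := hp.odd_of_ne_two (by omega)
    have e : (4 * (2 * t + 1)).choose (2 * (2 * t + 1)) = Nat.centralBinom (4 * t + 1 + 1) := by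
      rw [Nat.centralBinom]; congr 1 <;> ring
    have e1 := Nat.succ_mul_centralBinom_succ (4 * t + 1)
    have e2 := Nat.succ_mul_centralBinom_succ (4 * t)
    obtain ⟨c, hc⟩ := Nat.two_dvd_centralBinom_of_one_le (show 0 < 4 * t by omega)
    have c4 : ∀ s : ℕ, Nat.Coprime 4 (2 * s + 1) := fun s =>
      Nat.Coprime.pow_left 2 (Nat.coprime_two_left.2 (odd_two_mul_add_one s))
    obtain ⟨d, hd⟩ : 4 ∣ Nat.centralBinom (4 * t + 1) :=
      (c4 (2 * t)).dvd_of_dvd_mul_left ⟨(2 * (4 * t) + 1) * c, by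
        rw [show 2 * (2 * t) + 1 = 4 * t + 1 by ring, e2, hc]; ring⟩
    rw [e]
    refine (c4 t).dvd_of_dvd_mul_left ⟨(2 * (4 * t + 1) + 1) * d, ?_⟩
    rw [hd] at e1
    nlinarith

theorem result (m P : ℕ) (hP : P.Prime) (hm : 2 ≤ m) (h : m < P) :
    f (m * P) = m * P / Pmax (m * P) ↔ ∀ j, 1 ≤ j → j ≤ m / 2 → m ∣ (m * P).choose (j * P) :=
  aux.1 m P hP hm h

end Pool.Agent.Results.MP_35d543_nt.LargePrime
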